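import Pool.Agent.H37.CNJ.Stmts

/-!
# Row HC2 of the board `cnj`: quotients of `SU_3(q)` are groups of covers
-/

set_option autoImplicit false

namespace Pool.CND

private theorem hc2_emb (p : ℕ) (k F : Type) [Field k] [IsAlgClosed k] [Field F] (f q : ℕ)
    (hp : p.Prime) (hcp : CharP k p) (hf : 1 ≤ f) (hq : q = p ^ f) (hF : Nat.card F = q ^ 2) :
    Finite F ∧ Nonempty (F →+* k) := by
  have hq2 : 2 ≤ q := by
    rw [hq]
    exact le_trans hp.two_le (Nat.le_self_pow (by omega) p)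
  have hF0 : Nat.card F ≠ 0 := by
    rw [hF]
    positivity
  have i1 : Finite F := Nat.finite_of_card_ne_zero hF0
  have i2 : Fintype F := Fintype.ofFinite F
  have i3 : Fact p.Prime := ⟨hp⟩
  obtain ⟨r, hr⟩ := CharP.exists F
  obtain ⟨n, hrp, hn⟩ := FiniteField.card F r
  have hrp2 : r = p := by
    rw [← Nat.card_eq_fintype_card, hF, hq, ← pow_mul] at hn
    have h1 : r ∣ p ^ (f * 2) := by
      rw [hn]
      exact dvd_pow_self r n.ne_zero
    exact (Nat.prime_dvd_prime_iff_eq hrp hp).1 (hrp.dvd_of_dvd_pow h1)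
  have i4 : CharP F p := by rw [← hrp2]; exact hr
  let _ : Algebra (ZMod p) F := ZMod.algebra F p
  let _ : Algebra (ZMod p) k := ZMod.algebra k p
  exact ⟨i1, ⟨(IsAlgClosed.lift (R := ZMod p) (S := F) (M := k)).toRingHom⟩⟩

theorem hc2_thm (hUNE : S_UNE) (hUNK : S_UNK) (hQU1 : S_QU1) : S_HC2 := by
  intro p k F _ _ _ f q σ hp hcp hf hq hF hσ C _
  obtain ⟨i1, ⟨φ⟩⟩ := hc2_emb p k F f q hp hcp hf hq hF
  let _ : Algebra F k := φ.toAlgebra
  have i2 : Finite (Matrix.SpecialLinearGroup (Fin 3) F) :=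
    inferInstanceAs (Finite {A : Matrix (Fin 3) (Fin 3) F // A.det = 1})
  obtain ⟨L, _, _, t, X, ρ, P, hSu⟩ := hUNE p k F f q σ hp hcp hf hq hF hσ
  have hcov := hUNK p k F L f q σ t X ρ P hp hcp hf hq hF hσ hSu
  obtain ⟨E, ρ', t', _, _, _, h⟩ := hQU1 k L (SU3 σ) ρ t C hcov
  exact ⟨E, inferInstance, inferInstance, ρ', t', h⟩

end Pool.CND
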